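import Pool.Agent.Helper12.G.R_seed8.W602.GT.Defs

/-!
Special varieties in the sense of Campana, for function fields with a set of boundary places.
-/

set_option autoImplicit false

open FF

namespace Pool.Agent.W602.GT

variable (k K : Type) [Field k] [Field K] [Algebra k K]

/-- There is a Bogomolov sheaf of degree `p`: a rank one sheaf of `p`-forms (with logarithmic poles
along the boundary), given by a nonzero rational `p`-form `θ`, of Iitaka dimension `p`: for some
`N > 0` there are `p + 1` functions `f j` such that `f j * θ ^ N` is regular on logarithmic vector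
fields at all prime divisors, and regular on regular vector fields at the prime divisors not in
`Bd`, and such that the ratios of the `f j` contain `p` algebraically independent functions. -/
def BogSheaf (w : ℕ) (Bd : Place k K → Prop) (p : ℕ) : Prop :=
  ∃ θ : AlternatingMap K (Derivation k K K) K (Fin p), θ ≠ 0 ∧ ∃ N : ℕ, 0 < N ∧
    ∃ f : Fin (p + 1) → K,
      (∀ P : Place k K, Divisorial w P → ∀ D : Fin p → Derivation k K K, (∀ i, DerLog P (D i)) →
        ∀ j, P.Reg (f j * θ D ^ N)) ∧
      (∀ P : Place k K, Divisorial w P → ¬ Bd P → ∀ D : Fin p → Derivation k K K,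
        (∀ i, DerReg P (D i)) → ∀ j, P.Reg (f j * θ D ^ N)) ∧
      f 0 ≠ 0 ∧ AlgebraicIndependent k (fun i : Fin p => f i.succ / f 0)

/-- The varieties with function field `K`, of transcendence degree `w`, and boundary `Bd` are
special: there are no Bogomolov sheaves of positive degree. -/
def Special (w : ℕ) (Bd : Place k K → Prop) : Prop :=
  ∀ p : ℕ, 1 ≤ p → ¬ BogSheaf k K w Bd p

end Pool.Agent.W602.GT
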