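import Pool.Agent.Helper12.G.R_seed8.W602.GT.KNeg
import Pool.Agent.Helper12.G.R_seed8.W602.GT.SpecDefs

/-!
Purely transcendental fields are special.
-/

set_option autoImplicit false

open FF IntermediateField Pool.Agent.W603.LV

namespace Pool.Agent.W602.GT

variable {k K : Type} [Field k] [Field K] [Algebra k K]

/-- **Values on commuting vector fields.** Let `δ` be a derivation with `δ σ = σ` such that `K` is
generated by `σ` over the constants of `δ`, and suppose that the places which are trivial on the
constants and on `σ` have a centre. Let the vector fields `D i` commute with `δ`, and let `f` be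
regular at the places at which the `D i` are logarithmic, and at those outside `Bd` at which they
are regular. Then `f` is a constant of `δ`. -/
theorem spec_const [CharZero k] {w p : ℕ} (htr : Algebra.trdeg k K = w) {Bd : Place k K → Prop}
    (δ : Derivation k K K) {σ : K}
    (hσ0 : σ ≠ 0) (hσ : δ σ = σ) (htop : (consts δ)⟮σ⟯ = ⊤)
    (hBd : ∀ P : Place k K, (∀ c : K, δ c = 0 → c ≠ 0 → P.ord c = 0) → P.ord σ = 0 → ¬ Bd P)
    (D : Fin p → Derivation k K K) (hD : ∀ i z, D i (δ z) = δ (D i z)) {f : K}
    (hlog : ∀ P : Place k K, Divisorial w P → (∀ i, DerLog P (D i)) → P.Reg f)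
    (hreg : ∀ P : Place k K, Divisorial w P → ¬ Bd P → (∀ i, DerReg P (D i)) → P.Reg f) :
    δ f = 0 := by
  classical
  set C := consts δ with hC
  -- `σ` is transcendental over the constants
  have hσt : Transcendental C σ := by
    intro halg
    have h1 : Algebra.IsAlgebraic C K := by
      have h2 : Algebra.IsAlgebraic C C⟮σ⟯ :=
        IntermediateField.isAlgebraic_adjoin_simple halg.isIntegral
      constructor
      intro z
      have h3 := h2.isAlgebraic (⟨z, by rw [htop]; exact IntermediateField.mem_top⟩ : C⟮σ⟯)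
      exact h3.algebraMap (A := K)
    have h2 : Algebra.IsAlgebraic (IntermediateField.adjoin k (C : Set K)) K := by
      rw [IntermediateField.adjoin_self]
      exact h1
    have h3 := der_eq_zero δ _ h2 (fun s hs => hs)
    rw [h3] at hσ
    exact hσ0 hσ.symm
  -- a transcendence basis
  obtain ⟨B, hB⟩ := exists_isTranscendenceBasis k C
  have hσb : IsTranscendenceBasis C (fun _ : Unit => σ) := by
    have h1 : AlgebraicIndependent C (fun _ : Unit => σ) :=
      (algebraicIndependent_unique_type_iff).2 hσt
    rw [h1.isTranscendenceBasis_iff_isAlgebraic]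
    apply alg_adjoin
    have h2 : Set.range (fun _ : Unit => σ) = {σ} := by simp
    rw [h2, htop]
    infer_instance
  have hBσ := hB.sumElim_comp hσb
  have hcard := hBσ.cardinalMk_eq_trdeg
  rw [htr] at hcard
  have hfin : Finite (Unit ⊕ B) := by
    rw [← Cardinal.lt_aleph0_iff_finite, hcard]
    exact Cardinal.natCast_lt_aleph0
  have hfinB : Finite B := Finite.of_injective (Sum.inr : B → Unit ⊕ B) Sum.inr_injective
  obtain ⟨m, ⟨φ⟩⟩ := Finite.exists_equiv_fin B
  obtain rfl : w = m + 1 := by
    have h1 : Cardinal.mk (Unit ⊕ B) = ((m + 1 : ℕ) : Cardinal) := by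
      rw [Cardinal.mk_sum, Cardinal.mk_congr φ]
      simp [add_comm]
    rw [h1] at hcard
    exact_mod_cast hcard.symm
  let s : Fin m → C := fun l => (φ.symm l : C)
  have hs : IsTranscendenceBasis k s := hB.comp_equiv φ.symm
  have hDC : ∀ i c, c ∈ C → D i c ∈ C := by
    intro i c hc
    have h1 : δ c = 0 := hc
    change δ (D i c) = 0
    rw [← hD, h1, map_zero]
  have hDσ : ∀ i, D i σ / σ ∈ C := by
    intro i
    change δ (D i σ / σ) = 0
    have h1 := hD i σ
    rw [hσ] at h1
    rw [div_eq_mul_inv, δ.leibniz, δ.leibniz_inv, ← h1, hσ]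
    simp only [smul_eq_mul]
    field_simp
    ring
  have hkey : ∀ τ : K, (τ = σ ∨ τ = σ⁻¹) → f ∈ Algebra.adjoin C {τ} := by
    intro τ hτ
    have hτt : Transcendental C τ := by
      rcases hτ with rfl | rfl
      · exact hσt
      · intro h
        apply hσt
        have := h.inv
        rwa [inv_inv] at this
    have hττ : C⟮τ⟯ = ⊤ := by
      rcases hτ with rfl | rfl
      · exact htop
      · rw [eq_top_iff, ← htop, IntermediateField.adjoin_simple_le_iff]
        have h1 := inv_mem (IntermediateField.mem_adjoin_simple_self C σ⁻¹)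
        rwa [inv_inv] at h1
    have hDτ : ∀ i, D i τ / τ ∈ C := by
      intro i
      rcases hτ with rfl | rfl
      · exact hDσ i
      · rw [(D i).leibniz_inv, smul_eq_mul]
        have h1 : -σ⁻¹ ^ 2 * (D i) σ / σ⁻¹ = -(D i σ / σ) := by field_simp
        rw [h1]
        exact neg_mem (hDσ i)
    have hτ0 : τ ≠ 0 := by
      rcases hτ with rfl | rfl
      · exact hσ0
      · exact inv_ne_zero hσ0
    obtain ⟨S, hS1, hS2⟩ := places C hτt hττ
    apply hS2
    intro P hP
    obtain ⟨hP1, hP2, hP3, hP4⟩ := hS1 P hP
    have hAD : ∀ i, ∀ g ∈ Algebra.adjoin C {τ}, D i g ∈ Algebra.adjoin C {τ} := by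
      intro i g hg
      induction hg using Algebra.adjoin_induction with
      | mem z hz =>
        rw [Set.mem_singleton_iff] at hz
        subst hz
        have hz := Algebra.self_mem_adjoin_singleton (R := C) z
        have h1 : D i z = (D i z / z) * z := by field_simp
        rw [h1]
        exact Subalgebra.mul_mem _
          ((Algebra.adjoin C {z}).algebraMap_mem (⟨_, hDτ i⟩ : C)) hz
      | algebraMap r => exact (Algebra.adjoin C {τ}).algebraMap_mem (⟨_, hDC i _ r.2⟩ : C)
      | add f g hf' hg' hf hg => rw [map_add]; exact Subalgebra.add_mem _ hf hg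
      | mul f g hf' hg' hf hg =>
        rw [(D i).leibniz]
        exact Subalgebra.add_mem _ (Subalgebra.mul_mem _ hf' hg) (Subalgebra.mul_mem _ hg' hf)
    have hDreg : ∀ i, DerReg P (D i) := fun i => pl_reg (A := (Algebra.adjoin C {τ} : Set K))
      hP2 hP3 (hAD i)
    have hdiv : Divisorial (m + 1) P := by
      refine ⟨fun l => (s l : K), fun F hF => ?_⟩
      have h1 : MvPolynomial.aeval (fun l : Fin m => (s l : K)) F =
          ((MvPolynomial.aeval s F : C) : K) := by
        have := MvPolynomial.comp_aeval_apply (IntermediateField.val C) (p := F) (f := s)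
        exact this.symm
      have h2 : MvPolynomial.aeval s F ≠ 0 := by
        intro h0
        exact hF ((injective_iff_map_eq_zero _).1 hs.1 F h0)
      have h3 : ((MvPolynomial.aeval s F : C) : K) ≠ 0 := by
        intro h0
        exact h2 (Subtype.ext h0)
      constructor
      · change MvPolynomial.aeval (fun l : Fin m => (s l : K)) F ≠ 0
        rw [h1]; exact h3
      · change P.ord (MvPolynomial.aeval (fun l : Fin m => (s l : K)) F) = 0
        rw [h1]
        exact hP1 _ (MvPolynomial.aeval s F).2 h3
    rcases hP4 with h | h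
    · refine hreg P hdiv (hBd P hP1 ?_) hDreg
      rcases hτ with rfl | rfl
      · exact h
      · rw [P.ord_inv] at h; omega
    · refine hlog P hdiv fun i => pl_log (hDreg i) h ?_
      exact hP2 _ ((Algebra.adjoin C {τ}).algebraMap_mem (⟨_, hDτ i⟩ : C))
  exact adjoin_inter C hσt (hkey σ (Or.inl rfl)) (hkey σ⁻¹ (Or.inr rfl))

/-- the frame of a purely transcendental field -/
theorem exists_frame [CharZero k] {w : ℕ} (σ : Fin w → K) (hσ : IsTranscendenceBasis k σ) :
    ∃ δ : Fin w → Derivation k K K, (∀ l m, δ l (σ m) = if m = l then σ m else 0) ∧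
      (∀ l m z, δ l (δ m z) = δ m (δ l z)) ∧
      ∀ D : Derivation k K K, D = ∑ l, (D (σ l) / σ l) • δ l := by
  have hσ0 : ∀ l, σ l ≠ 0 := fun l => hσ.1.ne_zero l
  have h1 : ∀ l : Fin w, ∃ D : Derivation k K K, ∀ m, D (σ m) = if m = l then σ m else 0 :=
    fun l => exists_der σ hσ _
  choose δ hδ using h1
  refine ⟨δ, hδ, fun l m z => ?_, fun D => ?_⟩
  · have h2 : ⁅δ l, δ m⁆ = 0 := by
      apply der_ext σ hσ
      intro i
      rw [Derivation.commutator_apply, Derivation.zero_apply, hδ, hδ]
      split_ifs with h3 h4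
      · rw [hδ, hδ, if_pos h3, if_pos h4, sub_self]
      · rw [map_zero, hδ, if_neg h4, sub_zero]
      · rw [map_zero, hδ, if_neg h3, sub_zero]
      · rw [map_zero, map_zero, sub_zero]
    have h3 := congrArg (fun d : Derivation k K K => d z) h2
    simp only [Derivation.commutator_apply, Derivation.zero_apply] at h3
    exact sub_eq_zero.1 h3
  · apply der_ext σ hσ
    intro q
    have h0 : ∀ (t : Finset (Fin w)) (c : Fin w → K) (z : K),
        (∑ l ∈ t, c l • δ l) z = ∑ l ∈ t, c l * δ l z := by
      intro t c z
      induction t using Finset.induction_on with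
      | empty => simp
      | insert l t hl ih =>
        rw [Finset.sum_insert hl, Finset.sum_insert hl, Derivation.add_apply, ih]
        rfl
    rw [h0, Finset.sum_eq_single q]
    · rw [hδ, if_pos rfl]
      have := hσ0 q
      field_simp
    · intro l _ hl
      rw [hδ, if_neg (Ne.symm hl), mul_zero]
    · intro h
      exact absurd (Finset.mem_univ _) h

/-- **Purely transcendental fields are special.** Let `K` be generated by the transcendence basis
`σ`, and suppose that the places which are trivial on all `σ m`, `m ≠ l`, and their polynomials,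
and on `σ l`, have a centre. Then `K` is special. -/
theorem special_of_frame [CharZero k] [IsAlgClosed k] {w : ℕ} {Bd : Place k K → Prop}
    (σ : Fin w → K) (hσ : IsTranscendenceBasis k σ)
    (htop : IntermediateField.adjoin k (Set.range σ) = ⊤)
    (hBd : ∀ P : Place k K, (∀ m, P.ord (σ m) = 0) → ¬ Bd P) :
    Special k K w Bd := by
  classical
  have htr : Algebra.trdeg k K = w := by
    have h1 := hσ.cardinalMk_eq_trdeg
    rw [Cardinal.mk_fin] at h1
    exact h1.symm
  have hσ0 : ∀ l, σ l ≠ 0 := fun l => hσ.1.ne_zero l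
  obtain ⟨δ, hδ, hcomm, hspan⟩ := exists_frame σ hσ
  have hδtop : ∀ l, (consts (δ l))⟮σ l⟯ = ⊤ := by
    intro l
    have h1 : ((consts (δ l))⟮σ l⟯).restrictScalars k = ⊤ := by
      rw [eq_top_iff, ← htop, IntermediateField.adjoin_le_iff]
      rintro _ ⟨m, rfl⟩
      by_cases hm : m = l
      · rw [hm]
        exact IntermediateField.mem_adjoin_simple_self _ _
      · have h2 : δ l (σ m) = 0 := by rw [hδ, if_neg hm]
        exact ((consts (δ l))⟮σ l⟯).algebraMap_mem (⟨σ m, h2⟩ : consts (δ l))
    rw [eq_top_iff]
    intro x _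
    have h2 : x ∈ ((consts (δ l))⟮σ l⟯).restrictScalars k := by
      rw [h1]; exact IntermediateField.mem_top
    exact h2
  rintro p hp ⟨θ, hθ, N, hN, f, hlog, hreg, hf0, hind⟩
  -- the values on the frame are constants
  have hval : ∀ (I : Fin p → Fin w) (j : Fin (p + 1)), ∃ c : k,
      f j * θ (fun i => δ (I i)) ^ N = algebraMap k K c := by
    intro I j
    have h1 : ∀ l, δ l (f j * θ (fun i => δ (I i)) ^ N) = 0 := by
      intro l
      refine spec_const htr (Bd := Bd) (δ l) (hσ0 l) (by rw [hδ, if_pos rfl]) (hδtop l) ?_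
        (fun i => δ (I i)) (fun i z => (hcomm _ _ _)) ?_ ?_
      · intro P hP hPl
        apply hBd P
        intro m
        by_cases hm : m = l
        · rw [hm]; exact hPl
        · exact hP _ (by rw [hδ, if_neg hm]) (hσ0 m)
      · intro P hdiv hD
        exact hlog P hdiv _ hD j
      · intro P hdiv hPB hD
        exact hreg P hdiv hPB _ hD j
    obtain ⟨lam, hlam⟩ := exists_lam k w
    obtain ⟨D0, hD0⟩ := exists_der σ hσ (fun j => algebraMap k K (lam j) * σ j)
    refine const_of_der σ hσ lam hlam D0 hD0 ?_
    have h0 : ∀ (t : Finset (Fin w)) (c : Fin w → K) (z : K),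
        (∑ l ∈ t, c l • δ l) z = ∑ l ∈ t, c l * δ l z := by
      intro t c z
      induction t using Finset.induction_on with
      | empty => simp
      | insert l t hl ih =>
        rw [Finset.sum_insert hl, Finset.sum_insert hl, Derivation.add_apply, ih]
        rfl
    rw [hspan D0, h0]
    exact Finset.sum_eq_zero fun l _ => by rw [h1 l, mul_zero]
  -- some value is not zero
  obtain ⟨I, hI⟩ : ∃ I : Fin p → Fin w, θ (fun i => δ (I i)) ≠ 0 := by
    by_contra hcon
    push Not at hcon
    apply hθ
    ext D
    have h1 : D = fun i => ∑ l, (D i (σ l) / σ l) • δ l := by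
      funext i
      exact hspan (D i)
    rw [h1]
    have h2 := (θ : MultilinearMap K (fun _ : Fin p => Derivation k K K) K).map_sum
      (fun i l => (D i (σ l) / σ l) • δ l)
    change (θ : MultilinearMap K (fun _ : Fin p => Derivation k K K) K) _ = 0
    rw [h2]
    refine Finset.sum_eq_zero fun I _ => ?_
    rw [MultilinearMap.map_smul_univ]
    have h3 : (θ : MultilinearMap K (fun _ : Fin p => Derivation k K K) K) (fun i => δ (I i)) = 0 :=
      hcon I
    rw [h3, smul_zero]
  obtain ⟨c0, hc0⟩ := hval I 0
  have h1 := hind.transcendental ⟨0, hp⟩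
  obtain ⟨c1, hc1⟩ := hval I (Fin.succ ⟨0, hp⟩)
  apply h1
  have h2 : f (Fin.succ ⟨0, hp⟩) / f 0 = algebraMap k K (c1 / c0) := by
    rw [map_div₀, ← hc0, ← hc1]
    have h3 : θ (fun i => δ (I i)) ^ N ≠ 0 := pow_ne_zero _ hI
    field_simp
  rw [h2]
  exact isAlgebraic_algebraMap _

end Pool.Agent.W602.GT
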