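import Pool.Agent.Helper12.G.R_seed8.W602.GT.Loc

/-!
The order of the normalised Wronskian of a circuit.
-/

set_option autoImplicit false

open FF Pool.Agent.W603.LV

namespace Pool.Agent.W602.GT

variable {k K : Type} [Field k] [Field K] [Algebra k K]

theorem ord_prod' (P : Place k K) {ι : Type*} (s : Finset ι) (f : ι → K) (h : ∀ i ∈ s, f i ≠ 0) :
    P.ord (∏ i ∈ s, f i) = ∑ i ∈ s, P.ord (f i) := by
  classical
  induction s using Finset.induction_on with
  | empty => simp [P.ord_one]
  | insert a s ha ih =>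
    rw [Finset.prod_insert ha, Finset.sum_insert ha, P.ord_mul (h a (Finset.mem_insert_self a s)),
      ih fun i hi => h i (Finset.mem_insert_of_mem hi)]
    exact Finset.prod_ne_zero_iff.2 fun i hi => h i (Finset.mem_insert_of_mem hi)

variable {P : Place k K} {E : Derivation k K K}

theorem ge_step' {ε : ℤ} (hE : ∀ x : K, x ≠ 0 → Ge P (-ε) (E x / x)) {a : ℤ} {x : K}
    (hx : Ge P a x) : Ge P (a - ε) (E x) := by
  by_cases h : x = 0
  · rw [h, map_zero]; exact Ge.zero
  · have h1 := (hE x h).mul hx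
    rw [div_mul_cancel₀ _ h] at h1
    convert h1 using 1
    ring

theorem ge_iter' {ε : ℤ} (hE : ∀ x : K, x ≠ 0 → Ge P (-ε) (E x / x)) {a : ℤ} {x : K}
    (hx : Ge P a x) (r : ℕ) : Ge P (a - r * ε) ((⇑E)^[r] x) := by
  induction r with
  | zero => simpa using hx
  | succ r ih =>
    rw [Function.iterate_succ_apply']
    convert ge_step' hE ih using 1
    push_cast; ring

theorem wr_log {ε : ℤ} (hE : ∀ x : K, x ≠ 0 → Ge P (-ε) (E x / x)) {m : ℕ} (f : Fin m → K) :
    Ge P (∑ i, P.ord (f i) - ε * tri m) (wr E f) := by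
  refine ge_det P _ _ (fun i r => P.ord (f i) - (r : ℕ) * ε) (fun i r => ?_) (fun σ => ?_)
  · exact ge_iter' hE (ge_ord P (f i)) r
  · rw [Finset.sum_sub_distrib, Equiv.sum_comp σ (fun i => P.ord (f i)), ← Finset.sum_mul]
    unfold tri
    linarith

theorem wr_reg (hE : DerReg P E) {m : ℕ} (f : Fin m → K) (hf : ∀ i, Ge P 0 (f i)) :
    Ge P 0 (wr E f) := by
  have h : ∀ (r : ℕ) (x : K), Ge P 0 x → Ge P 0 ((⇑E)^[r] x) := by
    intro r
    induction r with
    | zero => intro x hx; simpa using hx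
    | succ r ih =>
      intro x hx
      rw [Function.iterate_succ_apply']
      exact hE _ (ih x hx)
  exact ge_det P _ _ (fun i r => 0) (fun i r => h r _ (hf i)) (fun σ => by simp)

/-- the Wronskian of a circuit, divided by the product of the terms -/
noncomputable def eta (E : Derivation k K K) {m : ℕ} (T : Fin (m + 1) → K) : K :=
  wr E (fun l => T ((Fin.last m).succAbove l)) / ∏ j, T j

theorem ge_neg_iff {n : ℤ} {f : K} (h : Ge P n (-f)) : Ge P n f := by
  have := h.neg
  rwa [neg_neg] at this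

theorem eta_aux {m : ℕ} {T : Fin (m + 1) → K} (hT : ∀ j, T j ≠ 0) (hsum : ∑ j, T j = 0)
    (b : Fin (m + 1)) {n : ℤ} (h : Ge P n (wr E (fun l => T (b.succAbove l)))) :
    Ge P (n - ∑ j, P.ord (T j)) (eta E T) := by
  unfold eta
  have hprod : (∏ j, T j) ≠ 0 := Finset.prod_ne_zero_iff.2 fun j _ => hT j
  rw [← ord_prod' P Finset.univ T fun j _ => hT j]
  apply ge_div hprod
  rcases wr_succAbove E T hsum (Fin.last m) b with h1 | h1
  · rw [h1]; exact h
  · rw [h1]; exact h.neg

theorem eta_log {ε : ℤ} (hE : ∀ x : K, x ≠ 0 → Ge P (-ε) (E x / x)) {m : ℕ}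
    {T : Fin (m + 1) → K} (hT : ∀ j, T j ≠ 0) (hsum : ∑ j, T j = 0) (b : Fin (m + 1)) :
    Ge P (- P.ord (T b) - ε * tri m) (eta E T) := by
  have h1 := eta_aux hT hsum b (wr_log hE (fun l => T (b.succAbove l)))
  convert h1 using 1
  rw [Fin.sum_univ_succAbove (fun j => P.ord (T j)) b]
  ring

theorem eta_reg (hE : DerReg P E) {m : ℕ} {T : Fin (m + 1) → K} (hT : ∀ j, T j ≠ 0)
    (hsum : ∑ j, T j = 0) (b : Fin (m + 1)) (hb : ∀ j, P.ord (T j) = P.ord (T b)) :
    Ge P (- P.ord (T b)) (eta E T) := by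
  have h0 : (fun l => T (b.succAbove l)) = fun l => T b * (T (b.succAbove l) / T b) := by
    funext l
    have := hT b
    field_simp
  have h1 : wr E (fun l => T (b.succAbove l)) = T b ^ m *
      wr E (fun l => T (b.succAbove l) / T b) := by
    rw [h0]
    have h2 := wr_change E 1 (T b) (fun l => T (b.succAbove l) / T b)
    rw [one_smul] at h2
    rw [h2]
    simp
  have h2 : Ge P 0 (wr E (fun l => T (b.succAbove l) / T b)) := by
    apply wr_reg hE
    intro l
    have h3 := ge_div (hT b) (ge_ord P (T (b.succAbove l)))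
    rw [hb (b.succAbove l)] at h3
    simpa using h3
  have h3 : Ge P (m * P.ord (T b)) (wr E (fun l => T (b.succAbove l))) := by
    rw [h1]
    have := ((ge_ord P (T b)).pow m).mul h2
    simpa using this
  have h4 := eta_aux hT hsum b h3
  convert h4 using 1
  rw [Finset.sum_congr rfl fun j _ => hb j]
  simp
  ring

theorem eta_smul (δ : K) (D : Derivation k K K) {m : ℕ} (T : Fin (m + 1) → K) :
    eta (δ • D) T = δ ^ (∑ r : Fin m, (r : ℕ)) * eta D T := by
  unfold eta
  have h2 := wr_change D δ 1 (fun l => T ((Fin.last m).succAbove l))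
  simp only [one_mul, mul_one] at h2
  rw [h2, Finset.prod_pow_eq_pow_sum]
  ring

end Pool.Agent.W602.GT
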