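import Mathlib

/-!
Derivations of finitely generated fields of characteristic zero.
-/

set_option autoImplicit false

open MvPolynomial

namespace Pool.Agent.W602.GT

section ext

variable {L K : Type} [Field L] [Field K] [Algebra L K]

/-- the algebra structure given by a family of elements -/
theorem alg_of_basis {ι : Type} (t : ι → K) (ht : IsTranscendenceBasis L t) :
    letI : Algebra (MvPolynomial ι L) K :=
      ((aeval t : MvPolynomial ι L →ₐ[L] K) : MvPolynomial ι L →+* K).toAlgebra
    Algebra.IsAlgebraic (MvPolynomial ι L) K := by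
  let _ : Algebra (MvPolynomial ι L) K :=
    ((aeval t : MvPolynomial ι L →ₐ[L] K) : MvPolynomial ι L →+* K).toAlgebra
  have h1 := ht.isAlgebraic
  refine Algebra.IsAlgebraic.of_ringHom_of_comp_eq
    (f := (ht.1.aevalEquiv : MvPolynomial ι L ≃ₐ[L] Algebra.adjoin L (Set.range t)))
    (g := RingHom.id K) ?_ Function.injective_id ?_
  · exact ht.1.aevalEquiv.surjective
  · ext x
    · simp [RingHom.algebraMap_toAlgebra]
    · simp [RingHom.algebraMap_toAlgebra]

variable [CharZero L]

/-- derivations can be prescribed on a transcendence basis -/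
theorem exists_der {ι : Type} (t : ι → K) (ht : IsTranscendenceBasis L t) (c : ι → K) :
    ∃ D : Derivation L K K, ∀ i, D (t i) = c i := by
  have hinj : Function.Injective (aeval t : MvPolynomial ι L →ₐ[L] K) :=
    ht.1
  have halg := alg_of_basis t ht
  let _ : Algebra (MvPolynomial ι L) K :=
    ((aeval t : MvPolynomial ι L →ₐ[L] K) : MvPolynomial ι L →+* K).toAlgebra
  have hst : IsScalarTower L (MvPolynomial ι L) K := IsScalarTower.of_algebraMap_eq' (by
    ext c
    simp [RingHom.algebraMap_toAlgebra])
  have hfs : FaithfulSMul (MvPolynomial ι L) K := (faithfulSMul_iff_algebraMap_injective _ _).2 hinj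
  let _ : Algebra (FractionRing (MvPolynomial ι L)) K := FractionRing.liftAlgebra (MvPolynomial ι L) K
  have hst2 : IsScalarTower (MvPolynomial ι L) (FractionRing (MvPolynomial ι L)) K := inferInstance
  have halg2 : Algebra.IsAlgebraic (FractionRing (MvPolynomial ι L)) K :=
    (IsFractionRing.comap_isAlgebraic_iff (A := MvPolynomial ι L)
      (K := FractionRing (MvPolynomial ι L)) (C := K)).1 halg
  have hchar : CharZero (FractionRing (MvPolynomial ι L)) := inferInstance
  have hsep : Algebra.IsSeparable (FractionRing (MvPolynomial ι L)) K := inferInstance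
  have h1 : Algebra.FormallyEtale (FractionRing (MvPolynomial ι L)) K :=
    Algebra.FormallyEtale.of_isSeparable _ _
  have h2 : Algebra.FormallyEtale (MvPolynomial ι L) (FractionRing (MvPolynomial ι L)) :=
    Algebra.FormallyEtale.of_isLocalization (nonZeroDivisors (MvPolynomial ι L))
  have h3 : Algebra.FormallyEtale (MvPolynomial ι L) K :=
    Algebra.FormallyEtale.comp (MvPolynomial ι L) (FractionRing (MvPolynomial ι L)) K
  let e := KaehlerDifferential.tensorKaehlerEquivOfFormallyEtale L (MvPolynomial ι L) K
  let d : Derivation L (MvPolynomial ι L) K := MvPolynomial.mkDerivation L c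
  let l : Ω[MvPolynomial ι L⁄L] →ₗ[MvPolynomial ι L] K := d.liftKaehlerDifferential
  let Λ : Ω[K⁄L] →ₗ[K] K := (LinearMap.liftBaseChange K l).comp e.symm.toLinearMap
  let D : Derivation L K K := Λ.compDer (KaehlerDifferential.D L K)
  refine ⟨D, fun i => ?_⟩
  have h5 : t i = algebraMap (MvPolynomial ι L) K (X i) := by
    simp [RingHom.algebraMap_toAlgebra]
  change Λ (KaehlerDifferential.D L K (t i)) = c i
  change LinearMap.liftBaseChange K l (e.symm (KaehlerDifferential.D L K (t i))) = c i
  rw [h5, KaehlerDifferential.tensorKaehlerEquivOfFormallyEtale_symm_D_algebraMap]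
  simp [l, d]

end ext

variable {k K : Type} [Field k] [Field K] [Algebra k K]

/-- the field of constants of a derivation -/
def consts (D : Derivation k K K) : IntermediateField k K where
  carrier := {x | D x = 0}
  mul_mem' := by
    intro a b ha hb
    simp only [Set.mem_ofPred_eq] at ha hb ⊢
    rw [D.leibniz, ha, hb]; simp
  add_mem' := by
    intro a b ha hb
    simp only [Set.mem_ofPred_eq] at ha hb ⊢
    rw [map_add, ha, hb, add_zero]
  algebraMap_mem' := fun r => D.map_algebraMap r
  inv_mem' := by
    intro a ha
    simp only [Set.mem_ofPred_eq] at ha ⊢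
    rw [D.leibniz_inv, ha]; simp

theorem mem_consts {D : Derivation k K K} {x : K} : x ∈ consts D ↔ D x = 0 := Iff.rfl

/-- a derivation is linear over its field of constants -/
def overConsts (D : Derivation k K K) : Derivation (consts D) K K :=
  Derivation.mk'
    { toFun := fun x => D x
      map_add' := fun x y => map_add D x y
      map_smul' := fun c x => by
        have h : D (c : K) = 0 := c.2
        change D ((c : K) * x) = (c : K) * D x
        rw [D.leibniz, h]; simp }
    (fun x y => D.leibniz x y)

theorem overConsts_apply (D : Derivation k K K) (x : K) : overConsts D x = D x := rfl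

theorem alg_consts (D : Derivation k K K) (S : Set K)
    (hS : Algebra.IsAlgebraic (IntermediateField.adjoin k S) K) (h : ∀ s ∈ S, D s = 0) :
    Algebra.IsAlgebraic (consts D) K := by
  have hle : IntermediateField.adjoin k S ≤ consts D := by
    rw [IntermediateField.adjoin_le_iff]
    exact h
  let _ : Algebra (IntermediateField.adjoin k S) (consts D) :=
    (IntermediateField.inclusion hle).toRingHom.toAlgebra
  have : IsScalarTower (IntermediateField.adjoin k S) (consts D) K :=
    IsScalarTower.of_algebraMap_eq fun x => rfl
  exact Algebra.IsAlgebraic.extendScalars (R := IntermediateField.adjoin k S)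
    (IntermediateField.inclusion hle).toRingHom.injective

/-- a derivation vanishes if the field is algebraic over the constants -/
theorem der_eq_zero [CharZero k] (D : Derivation k K K) (S : Set K)
    (hS : Algebra.IsAlgebraic (IntermediateField.adjoin k S) K) (h : ∀ s ∈ S, D s = 0) : D = 0 := by
  have halg := alg_consts D S hS h
  ext f
  have hint : IsIntegral (consts D) f := (halg.isAlgebraic f).isIntegral
  have hchar : CharZero (consts D) := charZero_of_injective_algebraMap
    (algebraMap k (consts D)).injective
  have h1 : overConsts D (Polynomial.aeval f (minpoly (consts D) f)) = 0 := by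
    rw [minpoly.aeval, map_zero]
  rw [Derivation.map_aeval] at h1
  have h2 : Polynomial.aeval f (Polynomial.derivative (minpoly (consts D) f)) ≠ 0 :=
    (minpoly.irreducible hint).separable.aeval_derivative_ne_zero (minpoly.aeval _ _)
  rw [smul_eq_mul, overConsts_apply] at h1
  exact (mul_eq_zero.mp h1).resolve_left h2

theorem der_ext [CharZero k] {w : Type} (t : w → K) (ht : IsTranscendenceBasis k t)
    {D D' : Derivation k K K} (h : ∀ i, D (t i) = D' (t i)) : D = D' := by
  have h1 := der_eq_zero (D - D') (Set.range t) ht.isAlgebraic_field (by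
    rintro _ ⟨i, rfl⟩
    rw [Derivation.sub_apply, h, sub_self])
  exact sub_eq_zero.mp h1

theorem const_of_algebraic [IsAlgClosed k] {h : K} (hh : IsAlgebraic k h) :
    ∃ c : k, h = algebraMap k K c := by
  have h1 := hh.isIntegral
  have h2 := IsAlgClosed.degree_eq_one_of_irreducible k (minpoly.irreducible h1)
  obtain ⟨c, hc⟩ := minpoly.degree_eq_one_iff.mp h2
  exact ⟨c, hc.symm⟩

/-- The derivation which multiplies the elements of a transcendence basis by constants which are
linearly independent over the rational numbers has no new constants. -/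
theorem const_of_der [IsAlgClosed k] [CharZero k] {w : ℕ} (t : Fin w → K)
    (ht : IsTranscendenceBasis k t) (lam : Fin w → k)
    (hlam : ∀ a b : Fin w →₀ ℕ, ∑ j, (a j : k) * lam j = ∑ j, (b j : k) * lam j → a = b)
    (D : Derivation k K K) (hD : ∀ j, D (t j) = algebraMap k K (lam j) * t j) {h : K}
    (hh : D h = 0) : ∃ c : k, h = algebraMap k K c := by
  classical
  apply const_of_algebraic
  have halg := alg_of_basis t ht
  let _ : Algebra (MvPolynomial (Fin w) k) K :=
    ((aeval t : MvPolynomial (Fin w) k →ₐ[k] K) : MvPolynomial (Fin w) k →+* K).toAlgebra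
  obtain ⟨P, hP, hPh⟩ := halg.isAlgebraic h
  let mon : (Fin w →₀ ℕ) → K := fun a => ∏ j, t j ^ a j
  have hmon0 : ∀ a, mon a ≠ 0 := by
    intro a
    refine Finset.prod_ne_zero_iff.mpr fun j _ => pow_ne_zero _ ?_
    exact ht.1.ne_zero j
  have hDmon : ∀ a, D (mon a) = algebraMap k K (∑ j, (a j : k) * lam j) * mon a := by
    intro a
    have hpow : ∀ (j : Fin w) (n : ℕ), D (t j ^ n) = algebraMap k K (n * lam j) * t j ^ n := by
      intro j n
      rw [D.leibniz_pow, hD]
      cases n with
      | zero => simp
      | succ n =>
        simp only [nsmul_eq_mul, smul_eq_mul, Nat.add_sub_cancel, map_mul, map_natCast]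
        ring
    have hs : ∀ s : Finset (Fin w), D (∏ j ∈ s, t j ^ a j)
        = algebraMap k K (∑ j ∈ s, (a j : k) * lam j) * ∏ j ∈ s, t j ^ a j := by
      intro s
      induction s using Finset.induction_on with
      | empty => simp
      | insert j s hj ih =>
        rw [Finset.prod_insert hj, Finset.sum_insert hj, D.leibniz, ih, hpow]
        simp only [smul_eq_mul, map_add]
        ring
    exact hs Finset.univ
  have hlin : LinearIndependent (consts D) mon := by
    apply Module.End.eigenvectors_linearIndependent' ((overConsts D).toLinearMap)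
      (fun a => algebraMap k (consts D) (∑ j, (a j : k) * lam j))
    · intro a b hab
      exact hlam a b ((algebraMap k (consts D)).injective hab)
    · intro a
      rw [Module.End.hasEigenvector_iff, Module.End.mem_eigenspace_iff]
      refine ⟨?_, hmon0 a⟩
      change D (mon a) = _
      rw [hDmon]
      rfl
  -- the coefficients
  set N := P.natDegree + 1 with hN
  have hcoef : ∀ a : Fin w →₀ ℕ,
      D (∑ n ∈ Finset.range N, algebraMap k K (coeff a (P.coeff n)) * h ^ n) = 0 := by
    intro a
    rw [map_sum]
    refine Finset.sum_eq_zero fun n _ => ?_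
    rw [D.leibniz, D.leibniz_pow, hh, D.map_algebraMap]
    simp
  let c : (Fin w →₀ ℕ) → consts D := fun a =>
    ⟨∑ n ∈ Finset.range N, algebraMap k K (coeff a (P.coeff n)) * h ^ n, hcoef a⟩
  set S : Finset (Fin w →₀ ℕ) := (Finset.range N).biUnion fun n => (P.coeff n).support with hS
  have hexp : ∀ n ∈ Finset.range N, aeval t (P.coeff n)
      = ∑ a ∈ S, algebraMap k K (coeff a (P.coeff n)) * mon a := by
    intro n hn
    rw [MvPolynomial.aeval_def, MvPolynomial.eval₂_eq']
    apply Finset.sum_subset
    · exact Finset.subset_biUnion_of_mem (fun n => (P.coeff n).support) hn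
    · intro a _ ha
      rw [MvPolynomial.notMem_support_iff.mp ha, map_zero, zero_mul]
  have hsum : ∑ a ∈ S, c a • mon a = 0 := by
    have h1 : Polynomial.aeval h P = ∑ n ∈ Finset.range N, aeval t (P.coeff n) * h ^ n := by
      rw [Polynomial.aeval_eq_sum_range]
      rfl
    rw [hPh] at h1
    calc ∑ a ∈ S, c a • mon a
        = ∑ a ∈ S, ∑ n ∈ Finset.range N,
            (algebraMap k K (coeff a (P.coeff n)) * h ^ n) * mon a := by
          refine Finset.sum_congr rfl fun a _ => ?_
          rw [← Finset.sum_mul]
          rfl
      _ = ∑ n ∈ Finset.range N, ∑ a ∈ S,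
            (algebraMap k K (coeff a (P.coeff n)) * h ^ n) * mon a := Finset.sum_comm
      _ = ∑ n ∈ Finset.range N, aeval t (P.coeff n) * h ^ n := by
          refine Finset.sum_congr rfl fun n hn => ?_
          rw [hexp n hn, Finset.sum_mul]
          exact Finset.sum_congr rfl fun a _ => by ring
      _ = 0 := h1.symm
  have hc := linearIndependent_iff'.mp hlin S c hsum
  obtain ⟨n, hn⟩ : ∃ n, P.coeff n ≠ 0 := by
    by_contra hcon
    push Not at hcon
    exact hP (Polynomial.ext fun n => by rw [hcon n, Polynomial.coeff_zero])
  have hnN : n ∈ Finset.range N := by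
    rw [Finset.mem_range, hN]
    exact Nat.lt_succ_of_le (Polynomial.le_natDegree_of_ne_zero hn)
  obtain ⟨a, ha⟩ : ∃ a, coeff a (P.coeff n) ≠ 0 := MvPolynomial.ne_zero_iff.mp hn
  have haS : a ∈ S := by
    rw [hS, Finset.mem_biUnion]
    exact ⟨n, hnN, MvPolynomial.mem_support_iff.mpr ha⟩
  have hca := congrArg (Subtype.val) (hc a haS)
  refine ⟨∑ m ∈ Finset.range N, Polynomial.C (coeff a (P.coeff m)) * Polynomial.X ^ m, ?_, ?_⟩
  · intro h0
    have h1 := congrArg (fun q => Polynomial.coeff q n) h0
    simp only [Polynomial.finsetSum_coeff, Polynomial.coeff_C_mul_X_pow, Polynomial.coeff_zero]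
      at h1
    rw [Finset.sum_ite_eq, if_pos hnN] at h1
    exact ha h1
  · rw [map_sum]
    simp only [map_mul, Polynomial.aeval_C, map_pow, Polynomial.aeval_X]
    exact hca

end Pool.Agent.W602.GT
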