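import Pool.Agent.Helper12.G.R_seed8.W602.GT.NG
import Pool.Agent.Helper12.G.R_seed8.W602.GT.KDefs

/-!
Sections of multiples of the log canonical bundle on function fields with a one-parameter group.
-/

set_option autoImplicit false

open FF IntermediateField Pool.Agent.W603.LV

namespace Pool.Agent.W602.GT

variable {k K : Type} [Field k] [Field K] [Algebra k K]

/-- **One-parameter groups.** Let `δ` be a derivation with `δ σ = σ` such that `K` is generated by
`σ` over the constants of `δ`, and suppose that the places which are trivial on the constants and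
on `σ` have a centre. Then the values of all sections on a suitable frame are constants of `δ`. If
moreover the zeros of `σ` have a centre then all sections vanish. -/
theorem sec_const [CharZero k] {w : ℕ} (htr : Algebra.trdeg k K = w) {Bd : Place k K → Prop}
    (δ : Derivation k K K) {σ : K}
    (hσ0 : σ ≠ 0) (hσ : δ σ = σ) (htop : (consts δ)⟮σ⟯ = ⊤)
    (hBd : ∀ P : Place k K, (∀ c : K, δ c = 0 → c ≠ 0 → P.ord c = 0) → P.ord σ = 0 → ¬ Bd P) :
    ∃ D : Fin w → Derivation k K K,
      (∀ D' : Fin w → Derivation k K K, ∃ M : Matrix (Fin w) (Fin w) K,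
        (fun i => ∑ l, M i l • D l) = D') ∧
      (∀ N ω, LogSec k K w N Bd ω → δ (ω D) = 0) ∧
      ((∀ P : Place k K, (∀ c : K, δ c = 0 → c ≠ 0 → P.ord c = 0) → 0 < P.ord σ → ¬ Bd P) →
        ∀ N, 0 < N → ∀ ω, LogSec k K w N Bd ω → ω D = 0) := by
  classical
  set C := consts δ with hC
  -- `σ` is transcendental over the constants
  have hσt : Transcendental C σ := by
    intro halg
    have h1 : Algebra.IsAlgebraic C K := by
      have h2 : Algebra.IsAlgebraic C C⟮σ⟯ :=
        IntermediateField.isAlgebraic_adjoin_simple halg.isIntegral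
      constructor
      intro z
      have h3 := h2.isAlgebraic (⟨z, by rw [htop]; exact IntermediateField.mem_top⟩ : C⟮σ⟯)
      exact h3.algebraMap (A := K)
    have h2 : Algebra.IsAlgebraic (IntermediateField.adjoin k (C : Set K)) K := by
      rw [IntermediateField.adjoin_self]
      exact h1
    have h3 := der_eq_zero δ _ h2 (fun s hs => hs)
    rw [h3] at hσ
    exact hσ0 hσ.symm
  -- a transcendence basis
  obtain ⟨B, hB⟩ := exists_isTranscendenceBasis k C
  have hσb : IsTranscendenceBasis C (fun _ : Unit => σ) := by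
    have h1 : AlgebraicIndependent C (fun _ : Unit => σ) :=
      (algebraicIndependent_unique_type_iff).2 hσt
    rw [h1.isTranscendenceBasis_iff_isAlgebraic]
    apply alg_adjoin
    have h2 : Set.range (fun _ : Unit => σ) = {σ} := by simp
    rw [h2, htop]
    infer_instance
  have hBσ := hB.sumElim_comp hσb
  have hcard := hBσ.cardinalMk_eq_trdeg
  rw [htr] at hcard
  have hfin : Finite (Unit ⊕ B) := by
    rw [← Cardinal.lt_aleph0_iff_finite, hcard]
    exact Cardinal.natCast_lt_aleph0
  have hfinB : Finite B := Finite.of_injective (Sum.inr : B → Unit ⊕ B) Sum.inr_injective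
  obtain ⟨m, ⟨φ⟩⟩ := Finite.exists_equiv_fin B
  obtain rfl : w = m + 1 := by
    have h1 : Cardinal.mk (Unit ⊕ B) = ((m + 1 : ℕ) : Cardinal) := by
      rw [Cardinal.mk_sum, Cardinal.mk_congr φ]
      simp [add_comm]
    rw [h1] at hcard
    exact_mod_cast hcard.symm
  let s : Fin m → C := fun l => (φ.symm l : C)
  have hs : IsTranscendenceBasis k s := hB.comp_equiv φ.symm
  let x : Fin (m + 1) → K := Fin.cons σ (fun l => (s l : K))
  have hx : IsTranscendenceBasis k x := by
    let E : Fin (m + 1) ≃ Unit ⊕ B := (finSuccEquiv m).trans ((Equiv.optionEquivSumPUnit _).trans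
      ((Equiv.sumComm _ _).trans (Equiv.sumCongr (Equiv.refl _) φ.symm)))
    have h1 := hBσ.comp_equiv E
    convert h1 using 1
    funext i
    refine Fin.cases ?_ (fun l => ?_) i
    · simp [x, E]
    · simp [x, E, s]
  have hx0 : ∀ l : Fin m, x l.succ = (s l : K) := fun l => rfl
  -- the dual derivations
  have hDer : ∀ l : Fin m, ∃ D : Derivation k K K, D σ = 0 ∧
      ∀ j, D (s j : K) = if j = l then 1 else 0 := by
    intro l
    obtain ⟨D, hD⟩ := exists_der x hx (Fin.cons 0 fun j => if j = l then 1 else 0)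
    exact ⟨D, hD 0, fun j => hD j.succ⟩
  choose Δ hΔσ hΔs using hDer
  let D : Fin (m + 1) → Derivation k K K := Fin.cons δ Δ
  have hδs : ∀ j, δ (s j : K) = 0 := fun j => (s j).2
  have hcomm : ∀ l c, δ c = 0 → δ (Δ l c) = 0 := by
    intro l c hc
    have h1 : ⁅Δ l, δ⁆ = 0 := by
      apply der_ext x hx
      intro i
      rw [Derivation.commutator_apply, Derivation.zero_apply]
      refine Fin.cases ?_ (fun j => ?_) i
      · change Δ l (δ σ) - δ (Δ l σ) = 0
        rw [hσ, hΔσ, map_zero, sub_zero]
      · change Δ l (δ (s j : K)) - δ (Δ l (s j : K)) = 0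
        rw [hδs, hΔs, map_zero, zero_sub, neg_eq_zero]
        split_ifs
        · exact δ.map_one_eq_zero
        · exact map_zero _
    have h2 := congrArg (fun d : Derivation k K K => d c) h1
    simp only [Derivation.commutator_apply, Derivation.zero_apply, hc, map_zero, zero_sub,
      neg_eq_zero] at h2
    exact h2
  have hDC : ∀ i c, c ∈ C → D i c ∈ C := by
    intro i
    refine Fin.cases ?_ (fun l => ?_) i
    · intro c hc
      change δ c ∈ C
      have h1 : δ c = 0 := hc
      rw [h1]
      exact zero_mem C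
    · intro c hc
      exact hcomm l c hc
  have hDσ : ∀ i, D i σ = 0 ∨ D i σ = σ := by
    intro i
    refine Fin.cases ?_ (fun l => ?_) i
    · exact Or.inr hσ
    · exact Or.inl (hΔσ l)
  -- the places of the two affine lines
  have hpl : ∀ τ : K, (τ = σ ∨ τ = σ⁻¹) → ∃ S : Set (Place k K),
      (∀ P ∈ S, (∀ c : K, δ c = 0 → c ≠ 0 → P.ord c = 0) ∧ (∀ f ∈ Algebra.adjoin C {τ}, P.Reg f) ∧
        (∀ f, P.Reg f → ∃ a ∈ Algebra.adjoin C {τ}, ∃ b ∈ Algebra.adjoin C {τ},
          b ≠ 0 ∧ P.ord b = 0 ∧ f * b = a) ∧ (P.ord τ = 0 ∨ (P.ord τ = 1 ∧ ∀ i, DerLog P (D i))) ∧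
        (∀ i, DerReg P (D i)) ∧ Divisorial (m + 1) P) ∧
      ∀ f, (∀ P ∈ S, P.Reg f) → f ∈ Algebra.adjoin C {τ} := by
    intro τ hτ
    have hτt : Transcendental C τ := by
      rcases hτ with rfl | rfl
      · exact hσt
      · intro h
        apply hσt
        have := h.inv
        rwa [inv_inv] at this
    have hττ : C⟮τ⟯ = ⊤ := by
      rcases hτ with rfl | rfl
      · exact htop
      · rw [eq_top_iff, ← htop, IntermediateField.adjoin_simple_le_iff]
        have h1 := inv_mem (IntermediateField.mem_adjoin_simple_self C σ⁻¹)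
        rwa [inv_inv] at h1
    have hDτ : ∀ i, D i τ / τ = 0 ∨ D i τ / τ = 1 ∨ D i τ / τ = -1 := by
      intro i
      rcases hτ with rfl | rfl
      · rcases hDσ i with h | h
        · left; rw [h, zero_div]
        · right; left; rw [h, div_self hσ0]
      · rw [(D i).leibniz_inv]
        rcases hDσ i with h | h
        · left; rw [h, smul_zero, zero_div]
        · right; right
          rw [h, smul_eq_mul]
          field_simp
    have hτ0 : τ ≠ 0 := by
      rcases hτ with rfl | rfl
      · exact hσ0
      · exact inv_ne_zero hσ0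
    obtain ⟨S, hS1, hS2⟩ := places C hτt hττ
    refine ⟨S, fun P hP => ?_, hS2⟩
    obtain ⟨hP1, hP2, hP3, hP4⟩ := hS1 P hP
    have hAD : ∀ i, ∀ f ∈ Algebra.adjoin C {τ}, D i f ∈ Algebra.adjoin C {τ} := by
      intro i f hf
      induction hf using Algebra.adjoin_induction with
      | mem z hz =>
        rw [Set.mem_singleton_iff] at hz
        subst hz
        have hz := Algebra.self_mem_adjoin_singleton (R := C) z
        have h1 : D i z = (D i z / z) * z := by field_simp
        rw [h1]
        rcases hDτ i with h | h | h <;> rw [h]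
        · rw [zero_mul]; exact Subalgebra.zero_mem _
        · rw [one_mul]; exact hz
        · rw [neg_one_mul]; exact Subalgebra.neg_mem _ hz
      | algebraMap r => exact (Algebra.adjoin C {τ}).algebraMap_mem (⟨_, hDC i _ r.2⟩ : C)
      | add f g hf' hg' hf hg => rw [map_add]; exact Subalgebra.add_mem _ hf hg
      | mul f g hf' hg' hf hg =>
        rw [(D i).leibniz]
        exact Subalgebra.add_mem _ (Subalgebra.mul_mem _ hf' hg) (Subalgebra.mul_mem _ hg' hf)
    have hDreg : ∀ i, DerReg P (D i) := fun i => pl_reg (A := (Algebra.adjoin C {τ} : Set K))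
      hP2 hP3 (hAD i)
    have hdiv : Divisorial (m + 1) P := by
      refine ⟨fun l => (s l : K), fun F hF => ?_⟩
      have h1 : MvPolynomial.aeval (fun l : Fin m => (s l : K)) F =
          ((MvPolynomial.aeval s F : C) : K) := by
        have := MvPolynomial.comp_aeval_apply (IntermediateField.val C) (p := F) (f := s)
        exact this.symm
      have h2 : MvPolynomial.aeval s F ≠ 0 := by
        intro h0
        exact hF ((injective_iff_map_eq_zero _).1 hs.1 F h0)
      have h3 : ((MvPolynomial.aeval s F : C) : K) ≠ 0 := by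
        intro h0
        exact h2 (Subtype.ext h0)
      constructor
      · change MvPolynomial.aeval (fun l : Fin m => (s l : K)) F ≠ 0
        rw [h1]; exact h3
      · change P.ord (MvPolynomial.aeval (fun l : Fin m => (s l : K)) F) = 0
        rw [h1]
        exact hP1 _ (MvPolynomial.aeval s F).2 h3
    refine ⟨hP1, hP2, hP3, ?_, hDreg, hdiv⟩
    rcases hP4 with h | h
    · exact Or.inl h
    · refine Or.inr ⟨h, fun i => pl_log (hDreg i) h ?_⟩
      rcases hDτ i with h | h | h <;> rw [h]
      · exact P.reg_zero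
      · exact P.reg_one
      · exact P.reg_neg P.reg_one
  -- the coefficient functions are constants
  have hkey : ∀ τ : K, (τ = σ ∨ τ = σ⁻¹) → ∀ N ω, LogSec k K (m + 1) N Bd ω →
      ω D ∈ Algebra.adjoin C {τ} := by
    intro τ hτ N ω hω
    obtain ⟨S, hS1, hS2⟩ := hpl τ hτ
    apply hS2
    intro P hP
    obtain ⟨hP1, -, -, hP4, hDreg, hdiv⟩ := hS1 P hP
    rcases hP4 with h | h
    · apply hω.2.2 P hdiv ?_ D hDreg
      apply hBd P hP1
      rcases hτ with rfl | rfl
      · exact h
      · rw [P.ord_inv] at h; omega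
    · exact hω.2.1 P hdiv D h.2
  have hfC : ∀ N ω, LogSec k K (m + 1) N Bd ω → ω D ∈ C := fun N ω hω =>
    adjoin_inter C hσt (hkey σ (Or.inl rfl) N ω hω) (hkey σ⁻¹ (Or.inr rfl) N ω hω)
  refine ⟨D, fun D' => ⟨Matrix.of fun i => Fin.cons (D' i σ / σ) fun l => D' i (s l : K), ?_⟩,
    fun N ω hω => hfC N ω hω, fun hBd0 N hN ω hω => ?_⟩
  · funext i
    apply der_ext x hx
    intro q
    have h0 : ∀ (t : Finset (Fin (m + 1))) (c : Fin (m + 1) → K) (z : K),
        (∑ l ∈ t, c l • D l) z = ∑ l ∈ t, c l * D l z := by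
      intro t c z
      induction t using Finset.induction_on with
      | empty => simp
      | insert l t hl ih =>
        rw [Finset.sum_insert hl, Finset.sum_insert hl, Derivation.add_apply, ih]
        rfl
    rw [h0, Fin.sum_univ_succ]
    refine Fin.cases ?_ (fun j => ?_) q
    · change (D' i σ / σ) * δ σ + ∑ l : Fin m, D' i (s l : K) * Δ l σ = D' i σ
      rw [hσ, Finset.sum_eq_zero fun l _ => by rw [hΔσ, mul_zero]]
      field_simp
      ring
    · change (D' i σ / σ) * δ (s j : K) + ∑ l : Fin m, D' i (s l : K) * Δ l (s j : K) = D' i (s j : K)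
      rw [hδs, mul_zero, zero_add]
      simp only [hΔs, mul_ite, mul_one, mul_zero]
      rw [Finset.sum_ite_eq Finset.univ j]
      simp
  · -- the zeros of `σ`
    by_contra hne
    obtain ⟨S, hS1, hS2⟩ := hpl σ (Or.inl rfl)
    obtain ⟨P, hP, hPσ⟩ : ∃ P ∈ S, P.ord σ = 1 := by
      by_contra hcon
      push Not at hcon
      have h1 : σ⁻¹ ∈ Algebra.adjoin C {σ} := by
        apply hS2
        intro P hP
        obtain ⟨-, -, -, h4, -, -⟩ := hS1 P hP
        have h5 : P.ord σ = 0 := h4.resolve_right fun h => hcon P hP h.1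
        exact Or.inr (by rw [P.ord_inv, h5, neg_zero])
      have h2 := adjoin_inter C hσt h1 (Algebra.self_mem_adjoin_singleton C σ⁻¹)
      have h3 : σ ∈ C := by
        have := inv_mem h2
        rwa [inv_inv] at this
      have h4 : δ σ = 0 := h3
      rw [hσ] at h4
      exact hσ0 h4
    obtain ⟨hP1, hP2, hP3, -, hDreg, hdiv⟩ := hS1 P hP
    have hreg0 : DerReg P (σ⁻¹ • δ) := by
      refine pl_reg (A := (Algebra.adjoin C {σ} : Set K)) hP2 hP3 ?_
      intro f hf
      change σ⁻¹ * δ f ∈ Algebra.adjoin C {σ}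
      have hf' : f ∈ Algebra.adjoin C {σ} := hf
      clear hf
      induction hf' using Algebra.adjoin_induction with
      | mem z hz =>
        rw [Set.mem_singleton_iff] at hz
        subst hz
        rw [hσ, inv_mul_cancel₀ hσ0]
        exact Subalgebra.one_mem _
      | algebraMap r =>
        have h1 : δ (algebraMap C K r) = 0 := r.2
        rw [h1, mul_zero]
        exact Subalgebra.zero_mem _
      | add f g hf' hg' hf hg => rw [map_add, mul_add]; exact Subalgebra.add_mem _ hf hg
      | mul f g hf' hg' hf hg =>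
        have h1 : σ⁻¹ * δ (f * g) = f * (σ⁻¹ * δ g) + g * (σ⁻¹ * δ f) := by
          rw [δ.leibniz]
          simp only [smul_eq_mul]
          ring
        rw [h1]
        exact Subalgebra.add_mem _ (Subalgebra.mul_mem _ hf' hg) (Subalgebra.mul_mem _ hg' hf)
    let A : Matrix (Fin (m + 1)) (Fin (m + 1)) K := Matrix.diagonal (Fin.cons σ⁻¹ fun _ => 1)
    have hA : A.det = σ⁻¹ := by
      rw [Matrix.det_diagonal, Fin.prod_univ_succ]
      simp
    have h1 := hω.1 A D
    rw [hA] at h1
    have h2 : P.Reg (ω fun i => ∑ j, A i j • D j) := by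
      apply hω.2.2 P hdiv (hBd0 P hP1 (by omega))
      intro i
      have h3 : (∑ j, A i j • D j) = (Fin.cons σ⁻¹ fun _ => 1 : Fin (m + 1) → K) i • D i := by
        rw [Finset.sum_eq_single i]
        · simp [A]
        · intro j _ hj
          simp [A, Matrix.diagonal_apply_ne _ hj.symm]
        · intro h
          exact absurd (Finset.mem_univ _) h
      rw [h3]
      refine Fin.cases ?_ (fun l => ?_) i
      · exact hreg0
      · simp only [Fin.cons_succ, one_smul]
        exact hDreg _
    rw [h1] at h2
    have h3 : P.ord (σ⁻¹ ^ N * ω D) = -N := by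
      rw [P.ord_mul (pow_ne_zero _ (inv_ne_zero hσ0)) hne, P.ord_pow, P.ord_inv, hPσ,
        hP1 _ (hfC N ω hω) hne]
      ring
    rw [Place.reg_iff _ (mul_ne_zero (pow_ne_zero _ (inv_ne_zero hσ0)) hne), h3] at h2
    omega

end Pool.Agent.W602.GT
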