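import Pool.Agent.Helper12.G.R_seed8.W602.GT.Der
import Pool.Agent.Helper12.G.R_seed8.W603.LV.Loc

/-!
Constants which are linearly independent over the rational numbers, and Wronskians.
-/

set_option autoImplicit false

open FF Pool.Agent.W603.LV

namespace Pool.Agent.W602.GT

/-- rationally independent constants -/
theorem exists_lam (k : Type) [Field k] [IsAlgClosed k] [CharZero k] (w : ℕ) :
    ∃ lam : Fin w → k, ∀ a b : Fin w →₀ ℕ,
      ∑ j, (a j : k) * lam j = ∑ j, (b j : k) * lam j → a = b := by
  obtain ⟨p, hpw, hp⟩ := Nat.exists_infinite_primes (w + 2)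
  have hp0 : 0 < p := hp.pos
  have hirr : Irreducible (Polynomial.cyclotomic p ℚ) := Polynomial.cyclotomic.irreducible_rat hp0
  have hdeg : (Polynomial.cyclotomic p ℚ).degree ≠ 0 := by
    rw [Polynomial.degree_cyclotomic, Nat.totient_prime hp]
    have : p - 1 ≠ 0 := by omega
    exact_mod_cast this
  obtain ⟨θ, hθ⟩ := IsAlgClosed.exists_aeval_eq_zero k (Polynomial.cyclotomic p ℚ) hdeg
  have hmin : Polynomial.cyclotomic p ℚ = minpoly ℚ θ :=
    minpoly.eq_of_irreducible_of_monic hirr hθ (Polynomial.cyclotomic.monic p ℚ)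
  refine ⟨fun j => θ ^ (j : ℕ), fun a b hab => ?_⟩
  set q : Polynomial ℚ := ∑ j : Fin w, Polynomial.C ((a j : ℚ) - (b j : ℚ)) * Polynomial.X ^ (j : ℕ)
    with hq
  have hq0 : Polynomial.aeval θ q = 0 := by
    rw [hq, map_sum]
    simp only [map_mul, Polynomial.aeval_C, map_pow, Polynomial.aeval_X, map_sub, map_natCast,
      sub_mul, Finset.sum_sub_distrib]
    exact sub_eq_zero.mpr hab
  have hdvd := minpoly.dvd ℚ θ hq0
  have hqdeg : q.degree < (w : ℕ) := by
    rw [hq]
    refine (Polynomial.degree_sum_le _ _).trans_lt ?_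
    rw [Finset.sup_lt_iff (by exact_mod_cast WithBot.bot_lt_coe w)]
    intro j _
    refine (Polynomial.degree_C_mul_X_pow_le _ _).trans_lt ?_
    exact_mod_cast j.2
  have hqz : q = 0 := by
    by_contra hne
    have h1 := Polynomial.degree_le_of_dvd hdvd hne
    rw [← hmin, Polynomial.degree_cyclotomic, Nat.totient_prime hp] at h1
    have h2 := h1.trans_lt hqdeg
    have h3 : p - 1 < w := by exact_mod_cast h2
    omega
  ext j
  have h1 := congrArg (fun q => Polynomial.coeff q (j : ℕ)) hqz
  simp only [hq, Polynomial.finsetSum_coeff, Polynomial.coeff_C_mul_X_pow, Polynomial.coeff_zero]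
    at h1
  rw [Finset.sum_eq_single j] at h1
  · rw [if_pos rfl, sub_eq_zero] at h1
    exact_mod_cast h1
  · intro i _ hij
    rw [if_neg]
    intro h
    exact hij (Fin.ext h.symm)
  · intro h
    exact absurd (Finset.mem_univ j) h

variable {k K : Type} [Field k] [Field K] [Algebra k K]

/-- Wronskians of linearly independent elements do not vanish. -/
theorem wr_ne {D : Derivation k K K} (hc : ∀ h, D h = 0 → ∃ c : k, h = algebraMap k K c) {m : ℕ} :
    ∀ f : Fin m → K, LinearIndependent k f → wr D f ≠ 0 := by
  induction m with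
  | zero =>
    intro f _
    unfold wr
    rw [Matrix.det_isEmpty]; exact one_ne_zero
  | succ m ih =>
    intro f hf h0
    unfold wr at h0
    obtain ⟨v, hv0, hv⟩ := Matrix.exists_vecMul_eq_zero_iff.2 h0
    have hrel : ∀ r : Fin (m + 1), ∑ i, v i * (⇑D)^[(r : ℕ)] (f i) = 0 := by
      intro r
      have := congrFun hv r
      exact this
    have hg : LinearIndependent k (fun i : Fin m => f i.castSucc) :=
      hf.comp _ (Fin.castSucc_injective m)
    have hW := ih _ hg
    have hlast : v (Fin.last m) ≠ 0 := by
      intro hl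
      apply hv0
      have h1 : (fun i : Fin m => v i.castSucc) = 0 := by
        apply Matrix.eq_zero_of_vecMul_eq_zero hW
        funext r
        have := hrel r.castSucc
        rw [Fin.sum_univ_castSucc, hl, zero_mul, add_zero] at this
        exact this
      funext i
      refine Fin.lastCases ?_ (fun i => ?_) i
      · exact hl
      · exact congrFun h1 i
    -- normalise
    set h : Fin m → K := fun i => v i.castSucc / v (Fin.last m) with hh
    have hrel2 : ∀ r : Fin (m + 1), ∑ i : Fin m, h i * (⇑D)^[(r : ℕ)] (f i.castSucc) +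
        (⇑D)^[(r : ℕ)] (f (Fin.last m)) = 0 := by
      intro r
      have := hrel r
      rw [Fin.sum_univ_castSucc] at this
      have h2 : ∑ i : Fin m, h i * (⇑D)^[(r : ℕ)] (f i.castSucc) =
          (∑ i : Fin m, v i.castSucc * (⇑D)^[(r : ℕ)] (f i.castSucc)) / v (Fin.last m) := by
        rw [Finset.sum_div]
        exact Finset.sum_congr rfl fun i _ => by simp only [hh]; ring
      rw [h2]
      field_simp
      rw [mul_zero]
      exact this
    have hDh : (fun i : Fin m => D (h i)) = 0 := by
      apply Matrix.eq_zero_of_vecMul_eq_zero hW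
      funext r
      have h1 := congrArg D (hrel2 r.castSucc)
      have h2 := hrel2 r.succ
      rw [map_zero, map_add, map_sum] at h1
      simp only [Fin.val_castSucc, Fin.val_succ, D.leibniz, smul_eq_mul,
        Function.iterate_succ_apply', Finset.sum_add_distrib] at h1 h2
      change ∑ i : Fin m, D (h i) * (⇑D)^[(r : ℕ)] (f i.castSucc) = 0
      have h3 : ∑ i : Fin m, D (h i) * (⇑D)^[(r : ℕ)] (f i.castSucc) =
          ∑ i : Fin m, (⇑D)^[(r : ℕ)] (f i.castSucc) * D (h i) :=
        Finset.sum_congr rfl fun i _ => mul_comm _ _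
      rw [h3]
      linear_combination h1 - h2
    have hconst : ∀ i, ∃ c : k, h i = algebraMap k K c := fun i =>
      hc _ (congrFun hDh i)
    choose c hc' using hconst
    have h4 := hrel2 0
    simp only [Fin.val_zero, Function.iterate_zero, id_eq] at h4
    have h5 := Fintype.linearIndependent_iff.1 hf (Fin.snoc c 1) (by
      rw [Fin.sum_univ_castSucc]
      simp only [Fin.snoc_castSucc, Fin.snoc_last, one_smul]
      rw [← h4]
      congr 1
      exact Finset.sum_congr rfl fun i _ => by rw [Algebra.smul_def, hc']) (Fin.last m)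
    rw [Fin.snoc_last] at h5
    exact one_ne_zero h5

end Pool.Agent.W602.GT
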