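import Pool.Agent.Helper12.G.R_seed8.W602.GT.Pl

/-!
Function fields with a one-parameter group are not of log general type.
-/

set_option autoImplicit false

open FF IntermediateField Pool.Agent.W603.LV

namespace Pool.Agent.W602.GT

variable {k K : Type} [Field k] [Field K] [Algebra k K]

/-- polynomials in `σ` and in `σ⁻¹` -/
theorem adjoin_inter (C : IntermediateField k K) {σ : K} (hσ : Transcendental C σ) {f : K}
    (h1 : f ∈ Algebra.adjoin C {σ}) (h2 : f ∈ Algebra.adjoin C {σ⁻¹}) : f ∈ C := by
  rw [Algebra.adjoin_singleton_eq_range_aeval] at h1 h2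
  obtain ⟨p, hp⟩ := h1
  obtain ⟨q, hq⟩ := h2
  have hσ0 : σ ≠ 0 := by
    rintro rfl
    exact hσ isAlgebraic_zero
  let _ : Invertible σ⁻¹ := invertibleOfNonzero (inv_ne_zero hσ0)
  have h3 := Polynomial.eval₂_reverse_mul_pow (algebraMap C K) σ⁻¹ q
  have h4 : (⅟(σ⁻¹) : K) = σ := by rw [invOf_eq_inv, inv_inv]
  rw [h4] at h3
  change Polynomial.aeval σ q.reverse * σ⁻¹ ^ q.natDegree = Polynomial.aeval σ⁻¹ q at h3
  have hq' : Polynomial.aeval σ⁻¹ q = f := hq
  have hp' : Polynomial.aeval σ p = f := hp
  have h5 : Polynomial.aeval σ (p * Polynomial.X ^ q.natDegree) = Polynomial.aeval σ q.reverse := by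
    rw [map_mul, map_pow, Polynomial.aeval_X, hp', ← hq', ← h3, mul_assoc, ← mul_pow,
      inv_mul_cancel₀ hσ0, one_pow, mul_one]
  have h6 := transcendental_iff_injective.1 hσ h5
  by_cases hp0 : p = 0
  · rw [← hp', hp0, map_zero]
    exact zero_mem C
  have h7 : p.natDegree = 0 := by
    have h8 := congrArg Polynomial.natDegree h6
    rw [Polynomial.natDegree_mul hp0 (pow_ne_zero _ Polynomial.X_ne_zero),
      Polynomial.natDegree_X_pow] at h8
    have h9 := Polynomial.reverse_natDegree_le q
    omega
  rw [Polynomial.eq_C_of_natDegree_eq_zero h7, Polynomial.aeval_C] at hp'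
  rw [← hp']
  exact (p.coeff 0).2

/-- regular derivations at the places of the affine line over `C` -/
theorem pl_reg {A : Set K} {P : Place k K} (hA : ∀ f ∈ A, P.Reg f)
    (hfr : ∀ f, P.Reg f → ∃ a ∈ A, ∃ b ∈ A, b ≠ 0 ∧ P.ord b = 0 ∧ f * b = a)
    {D : Derivation k K K} (hD : ∀ f ∈ A, D f ∈ A) : DerReg P D := by
  intro f hf
  obtain ⟨a, ha, b, hb, hb0, hbo, hab⟩ := hfr f hf
  have h1 : D f = (D a - f * D b) * b⁻¹ := by
    rw [← hab, D.leibniz]
    simp only [smul_eq_mul]
    field_simp
    ring
  rw [h1]
  refine P.reg_mul ?_ (Or.inr (by rw [P.ord_inv, hbo, neg_zero]))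
  have h2 := P.reg_add (hA _ (hD a ha)) (P.reg_neg (P.reg_mul hf (hA _ (hD b hb))))
  rwa [← sub_eq_add_neg] at h2

/-- logarithmic derivations at the origin -/
theorem pl_log {P : Place k K} {D : Derivation k K K} (hD : DerReg P D) {τ : K}
    (hτ : P.ord τ = 1) (hτD : P.Reg (D τ / τ)) : DerLog P D := by
  intro f
  by_cases hf : f = 0
  · rw [hf, map_zero, zero_div]
    exact P.reg_zero
  obtain ⟨u, hu, hu0, -, h1⟩ := logder_eq P D hτ hf
  rw [h1, reg_iff_ge]
  refine (ge_logder_reg hD hu hu0).add ?_
  have h2 := (Ge.intCast (P := P) (P.ord f)).mul hτD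
  simpa using h2

/-- **A field with a one-parameter group is not of log general type.** Let `δ` be a derivation with
`δ σ = σ` such that `K` is generated by `σ` over the constants of `δ`, and suppose that the places
which are trivial on the constants and on `σ` have a centre. -/
theorem not_log_gt [CharZero k] {w : ℕ} {Bd : Place k K → Prop} (δ : Derivation k K K) {σ : K}
    (hσ0 : σ ≠ 0) (hσ : δ σ = σ) (htop : (consts δ)⟮σ⟯ = ⊤)
    (hBd : ∀ P : Place k K, (∀ c : K, δ c = 0 → c ≠ 0 → P.ord c = 0) → P.ord σ = 0 → ¬ Bd P) :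
    ¬ LogGeneralType k K w Bd := by
  classical
  rintro ⟨htr, N, hN, ω, hω, hlog, hreg, D', hD', hind⟩
  set C := consts δ with hC
  -- `σ` is transcendental over the constants
  have hσt : Transcendental C σ := by
    intro halg
    have h1 : Algebra.IsAlgebraic C K := by
      have h2 : Algebra.IsAlgebraic C C⟮σ⟯ :=
        IntermediateField.isAlgebraic_adjoin_simple halg.isIntegral
      constructor
      intro z
      have h3 := h2.isAlgebraic (⟨z, by rw [htop]; exact IntermediateField.mem_top⟩ : C⟮σ⟯)
      exact h3.algebraMap (A := K)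
    have h2 : Algebra.IsAlgebraic (IntermediateField.adjoin k (C : Set K)) K := by
      rw [IntermediateField.adjoin_self]
      exact h1
    have h3 := der_eq_zero δ _ h2 (fun s hs => hs)
    rw [h3] at hσ
    exact hσ0 hσ.symm
  -- a transcendence basis
  obtain ⟨B, hB⟩ := exists_isTranscendenceBasis k C
  have hσb : IsTranscendenceBasis C (fun _ : Unit => σ) := by
    have h1 : AlgebraicIndependent C (fun _ : Unit => σ) :=
      (algebraicIndependent_unique_type_iff).2 hσt
    rw [h1.isTranscendenceBasis_iff_isAlgebraic]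
    apply alg_adjoin
    have h2 : Set.range (fun _ : Unit => σ) = {σ} := by simp
    rw [h2, htop]
    infer_instance
  have hBσ := hB.sumElim_comp hσb
  have hcard := hBσ.cardinalMk_eq_trdeg
  rw [htr] at hcard
  have hfin : Finite (Unit ⊕ B) := by
    rw [← Cardinal.lt_aleph0_iff_finite, hcard]
    exact Cardinal.natCast_lt_aleph0
  have hfinB : Finite B := Finite.of_injective (Sum.inr : B → Unit ⊕ B) Sum.inr_injective
  obtain ⟨m, ⟨φ⟩⟩ := Finite.exists_equiv_fin B
  obtain rfl : w = m + 1 := by
    have h1 : Cardinal.mk (Unit ⊕ B) = ((m + 1 : ℕ) : Cardinal) := by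
      rw [Cardinal.mk_sum, Cardinal.mk_congr φ]
      simp [add_comm]
    rw [h1] at hcard
    exact_mod_cast hcard.symm
  let s : Fin m → C := fun l => (φ.symm l : C)
  have hs : IsTranscendenceBasis k s := hB.comp_equiv φ.symm
  let x : Fin (m + 1) → K := Fin.cons σ (fun l => (s l : K))
  have hx : IsTranscendenceBasis k x := by
    let E : Fin (m + 1) ≃ Unit ⊕ B := (finSuccEquiv m).trans ((Equiv.optionEquivSumPUnit _).trans
      ((Equiv.sumComm _ _).trans (Equiv.sumCongr (Equiv.refl _) φ.symm)))
    have h1 := hBσ.comp_equiv E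
    convert h1 using 1
    funext i
    refine Fin.cases ?_ (fun l => ?_) i
    · simp [x, E]
    · simp [x, E, s]
  have hx0 : ∀ l : Fin m, x l.succ = (s l : K) := fun l => rfl
  -- the dual derivations
  have hDer : ∀ l : Fin m, ∃ D : Derivation k K K, D σ = 0 ∧
      ∀ j, D (s j : K) = if j = l then 1 else 0 := by
    intro l
    obtain ⟨D, hD⟩ := exists_der x hx (Fin.cons 0 fun j => if j = l then 1 else 0)
    exact ⟨D, hD 0, fun j => hD j.succ⟩
  choose Δ hΔσ hΔs using hDer
  let D : Fin (m + 1) → Derivation k K K := Fin.cons δ Δ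
  have hδs : ∀ j, δ (s j : K) = 0 := fun j => (s j).2
  have hcomm : ∀ l c, δ c = 0 → δ (Δ l c) = 0 := by
    intro l c hc
    have h1 : ⁅Δ l, δ⁆ = 0 := by
      apply der_ext x hx
      intro i
      rw [Derivation.commutator_apply, Derivation.zero_apply]
      refine Fin.cases ?_ (fun j => ?_) i
      · change Δ l (δ σ) - δ (Δ l σ) = 0
        rw [hσ, hΔσ, map_zero, sub_zero]
      · change Δ l (δ (s j : K)) - δ (Δ l (s j : K)) = 0
        rw [hδs, hΔs, map_zero, zero_sub, neg_eq_zero]
        split_ifs
        · exact δ.map_one_eq_zero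
        · exact map_zero _
    have h2 := congrArg (fun d : Derivation k K K => d c) h1
    simp only [Derivation.commutator_apply, Derivation.zero_apply, hc, map_zero, zero_sub,
      neg_eq_zero] at h2
    exact h2
  have hDC : ∀ i c, c ∈ C → D i c ∈ C := by
    intro i
    refine Fin.cases ?_ (fun l => ?_) i
    · intro c hc
      change δ c ∈ C
      have h1 : δ c = 0 := hc
      rw [h1]
      exact zero_mem C
    · intro c hc
      exact hcomm l c hc
  have hDσ : ∀ i, D i σ = 0 ∨ D i σ = σ := by
    intro i
    refine Fin.cases ?_ (fun l => ?_) i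
    · exact Or.inr hσ
    · exact Or.inl (hΔσ l)
  -- the coefficient functions are constants
  have hkey : ∀ τ : K, (τ = σ ∨ τ = σ⁻¹) → ∀ j, ω j D ∈ Algebra.adjoin C {τ} := by
    intro τ hτ j
    have hτt : Transcendental C τ := by
      rcases hτ with rfl | rfl
      · exact hσt
      · intro h
        apply hσt
        have := h.inv
        rwa [inv_inv] at this
    have hττ : C⟮τ⟯ = ⊤ := by
      rcases hτ with rfl | rfl
      · exact htop
      · rw [eq_top_iff, ← htop, IntermediateField.adjoin_simple_le_iff]
        have h1 := inv_mem (IntermediateField.mem_adjoin_simple_self C σ⁻¹)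
        rwa [inv_inv] at h1
    have hDτ : ∀ i, D i τ / τ = 0 ∨ D i τ / τ = 1 ∨ D i τ / τ = -1 := by
      intro i
      rcases hτ with rfl | rfl
      · rcases hDσ i with h | h
        · left; rw [h, zero_div]
        · right; left; rw [h, div_self hσ0]
      · rw [(D i).leibniz_inv]
        rcases hDσ i with h | h
        · left; rw [h, smul_zero, zero_div]
        · right; right
          rw [h, smul_eq_mul]
          field_simp
    have hτ0 : τ ≠ 0 := by
      rcases hτ with rfl | rfl
      · exact hσ0
      · exact inv_ne_zero hσ0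
    obtain ⟨S, hS1, hS2⟩ := places C hτt hττ
    apply hS2
    intro P hP
    obtain ⟨hP1, hP2, hP3, hP4⟩ := hS1 P hP
    have hAD : ∀ i, ∀ f ∈ Algebra.adjoin C {τ}, D i f ∈ Algebra.adjoin C {τ} := by
      intro i f hf
      induction hf using Algebra.adjoin_induction with
      | mem z hz =>
        rw [Set.mem_singleton_iff] at hz
        subst hz
        have hz := Algebra.self_mem_adjoin_singleton (R := C) z
        have h1 : D i z = (D i z / z) * z := by field_simp
        rw [h1]
        rcases hDτ i with h | h | h <;> rw [h]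
        · rw [zero_mul]; exact Subalgebra.zero_mem _
        · rw [one_mul]; exact hz
        · rw [neg_one_mul]; exact Subalgebra.neg_mem _ hz
      | algebraMap r => exact (Algebra.adjoin C {τ}).algebraMap_mem (⟨_, hDC i _ r.2⟩ : C)
      | add f g hf' hg' hf hg => rw [map_add]; exact Subalgebra.add_mem _ hf hg
      | mul f g hf' hg' hf hg =>
        rw [(D i).leibniz]
        exact Subalgebra.add_mem _ (Subalgebra.mul_mem _ hf' hg) (Subalgebra.mul_mem _ hg' hf)
    have hDreg : ∀ i, DerReg P (D i) := fun i => pl_reg (A := (Algebra.adjoin C {τ} : Set K))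
      hP2 hP3 (hAD i)
    have hdiv : Divisorial (m + 1) P := by
      refine ⟨fun l => (s l : K), fun F hF => ?_⟩
      have h1 : MvPolynomial.aeval (fun l : Fin m => (s l : K)) F =
          ((MvPolynomial.aeval s F : C) : K) := by
        have := MvPolynomial.comp_aeval_apply (IntermediateField.val C) (p := F) (f := s)
        exact this.symm
      have h2 : MvPolynomial.aeval s F ≠ 0 := by
        intro h0
        exact hF ((injective_iff_map_eq_zero _).1 hs.1 F h0)
      have h3 : ((MvPolynomial.aeval s F : C) : K) ≠ 0 := by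
        intro h0
        exact h2 (Subtype.ext h0)
      constructor
      · change MvPolynomial.aeval (fun l : Fin m => (s l : K)) F ≠ 0
        rw [h1]; exact h3
      · change P.ord (MvPolynomial.aeval (fun l : Fin m => (s l : K)) F) = 0
        rw [h1]
        exact hP1 _ (MvPolynomial.aeval s F).2 h3
    rcases hP4 with h | h
    · apply hreg P hdiv ?_ j D hDreg
      apply hBd P hP1
      rcases hτ with rfl | rfl
      · exact h
      · rw [P.ord_inv] at h; omega
    · apply hlog P hdiv j D
      intro i
      refine pl_log (hDreg i) h ?_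
      rcases hDτ i with h | h | h <;> rw [h]
      · exact P.reg_zero
      · exact P.reg_one
      · exact P.reg_neg P.reg_one
  have hfC : ∀ j, ω j D ∈ C := fun j =>
    adjoin_inter C hσt (hkey σ (Or.inl rfl) j) (hkey σ⁻¹ (Or.inr rfl) j)
  -- the ratios are constants
  let M : Matrix (Fin (m + 1)) (Fin (m + 1)) K :=
    Matrix.of fun i => Fin.cons (D' i σ / σ) fun l => D' i (s l : K)
  have hM : (fun i => ∑ l, M i l • D l) = D' := by
    funext i
    apply der_ext x hx
    intro q
    have h0 : ∀ (t : Finset (Fin (m + 1))) (c : Fin (m + 1) → K) (z : K),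
        (∑ l ∈ t, c l • D l) z = ∑ l ∈ t, c l * D l z := by
      intro t c z
      induction t using Finset.induction_on with
      | empty => simp
      | insert l t hl ih =>
        rw [Finset.sum_insert hl, Finset.sum_insert hl, Derivation.add_apply, ih]
        rfl
    rw [h0, Fin.sum_univ_succ]
    refine Fin.cases ?_ (fun j => ?_) q
    · change (D' i σ / σ) * δ σ + ∑ l : Fin m, D' i (s l : K) * Δ l σ = D' i σ
      rw [hσ, Finset.sum_eq_zero fun l _ => by rw [hΔσ, mul_zero]]
      field_simp
      ring
    · change (D' i σ / σ) * δ (s j : K) + ∑ l : Fin m, D' i (s l : K) * Δ l (s j : K) = D' i (s j : K)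
      rw [hδs, mul_zero, zero_add]
      simp only [hΔs, mul_ite, mul_one, mul_zero]
      rw [Finset.sum_ite_eq Finset.univ j]
      simp
  have hval : ∀ j, ω j D' = M.det ^ N * ω j D := by
    intro j
    have h1 := hω j M D
    rw [hM] at h1
    exact h1
  have hdet : M.det ^ N ≠ 0 := by
    intro h0
    apply hD'
    rw [hval, h0, zero_mul]
  have hratio : ∀ i : Fin (m + 1), ∃ c : C, ω i.succ D' / ω 0 D' = (c : K) := by
    intro i
    refine ⟨⟨ω i.succ D, hfC _⟩ / ⟨ω 0 D, hfC _⟩, ?_⟩
    rw [hval, hval, mul_div_mul_left _ _ hdet]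
    rfl
  choose c hc using hratio
  have hind' : AlgebraicIndependent k c := by
    have h1 : (fun i : Fin (m + 1) => ω i.succ D' / ω 0 D') = (IntermediateField.val C) ∘ c := by
      funext i
      exact hc i
    rw [h1] at hind
    exact hind.of_comp (IntermediateField.val C)
  have h1 := hind'.cardinalMk_le_trdeg
  rw [trdeg_of_basis hs, Cardinal.mk_fin] at h1
  have h2 : m + 1 ≤ m := by exact_mod_cast h1
  omega

end Pool.Agent.W602.GT
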