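import Pool.Agent.Helper12.G.R_seed8.W602.GT.Sys
import Pool.Agent.Helper12.G.R_seed8.Helper386.D5V.Helper386_FF_Fund

/-!
Places of a rational function field over a field of constants.
-/

set_option autoImplicit false

open FF IntermediateField IsDedekindDomain

namespace Pool.Agent.W602.GT

variable {k K : Type} [Field k] [Field K] [Algebra k K]

/-- The places of `K = C(τ)` with centre on the affine line over `C`. -/
theorem places (C : IntermediateField k K) {τ : K} (hτ : Transcendental C τ) (htop : C⟮τ⟯ = ⊤) :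
    ∃ S : Set (Place k K),
      (∀ P ∈ S, (∀ c : K, c ∈ C → c ≠ 0 → P.ord c = 0) ∧ (∀ f ∈ Algebra.adjoin C {τ}, P.Reg f) ∧
        (∀ f, P.Reg f → ∃ a ∈ Algebra.adjoin C {τ}, ∃ b ∈ Algebra.adjoin C {τ},
          b ≠ 0 ∧ P.ord b = 0 ∧ f * b = a) ∧ (P.ord τ = 0 ∨ P.ord τ = 1)) ∧
      ∀ f, (∀ P ∈ S, P.Reg f) → f ∈ Algebra.adjoin C {τ} := by
  let A := Algebra.adjoin C {τ}
  let e := Polynomial.algEquivOfTranscendental C τ hτ
  have hpid : IsPrincipalIdealRing A := IsPrincipalIdealRing.of_surjective e.toRingEquiv e.surjective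
  have hded : IsDedekindDomain A := inferInstance
  let π : A := ⟨τ, Algebra.self_mem_adjoin_singleton C τ⟩
  have hτ0 : τ ≠ 0 := by
    rintro rfl
    exact hτ isAlgebraic_zero
  have hπ : π ≠ 0 := by
    intro h; exact hτ0 (congrArg Subtype.val h)
  have heπ : e Polynomial.X = π := Polynomial.algEquivOfTranscendental_apply_X C τ hτ
  have hmax : (Ideal.span {π}).IsMaximal := by
    have h1 : (Ideal.span {(Polynomial.X : Polynomial C)}).IsMaximal :=
      PrincipalIdealRing.isMaximal_of_irreducible (Polynomial.irreducible_X (R := C))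
    have h2 : Ideal.span {π} = Ideal.map e.toRingEquiv.toRingHom
        (Ideal.span {(Polynomial.X : Polynomial C)}) := by
      rw [Ideal.map_span, Set.image_singleton]
      congr 2
      exact heπ.symm
    rw [h2]
    exact Ideal.map_isMaximal_of_equiv e.toRingEquiv
  have hadj : ∀ r : Polynomial C, Polynomial.aeval τ r ∈ A := by
    intro r
    change _ ∈ Algebra.adjoin C {τ}
    rw [Algebra.adjoin_singleton_eq_range_aeval]
    exact ⟨r, rfl⟩
  have hfr : IsFractionRing A K := by
    apply IsFractionRing.of_field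
    intro z
    have hz : z ∈ C⟮τ⟯ := by rw [htop]; exact IntermediateField.mem_top
    rw [IntermediateField.mem_adjoin_simple_iff] at hz
    obtain ⟨r, s, hz⟩ := hz
    exact ⟨⟨_, hadj r⟩, ⟨_, hadj s⟩, hz⟩
  refine ⟨Set.range fun v : HeightOneSpectrum A => placeOf (k := k) (L := K) v, ?_, ?_⟩
  · rintro _ ⟨v, rfl⟩
    have hreg : ∀ f ∈ A, (placeOf (k := k) (L := K) v).Reg f := fun f hf =>
      placeOf_reg v (⟨f, hf⟩ : A)
    have hunit : ∀ a : A, a ∉ v.asIdeal → (placeOf (k := k) (L := K) v).ord (a : K) = 0 := by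
      intro a ha
      have ha0 : (a : K) ≠ 0 := by
        intro h0
        apply ha
        have : a = 0 := Subtype.ext h0
        rw [this]
        exact v.asIdeal.zero_mem
      have h1 := (placeOf_nonneg (k := k) v ha0).2 (v.valuation_le_one a)
      have h2 : ¬ 0 < (placeOf (k := k) (L := K) v).ord (a : K) := by
        rw [placeOf_pos v ha0]
        intro h
        exact ha ((v.valuation_lt_one_iff_mem a).1 h)
      omega
    refine ⟨fun c hc hc0 => ?_, hreg, fun f hf => ?_, ?_⟩
    · have h1 := hreg c (A.algebraMap_mem (⟨c, hc⟩ : C))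
      have h2 := hreg c⁻¹ (A.algebraMap_mem (⟨c, hc⟩ : C)⁻¹)
      rw [Place.reg_iff _ hc0] at h1
      rw [Place.reg_iff _ (inv_ne_zero hc0), Place.ord_inv] at h2
      change (placeOf (k := k) (L := K) v).ord c = 0
      omega
    · by_cases hf0 : f = 0
      · exact ⟨0, A.zero_mem, 1, A.one_mem, one_ne_zero, Place.ord_one _, by rw [hf0, zero_mul]⟩
      obtain ⟨a, d, h⟩ := v.exists_primeCompl_mul_eq_of_integer f
        ((placeOf_nonneg (k := k) v hf0).1 ((Place.reg_iff _ hf0).1 hf))
      refine ⟨(a : K), a.2, ((d : A) : K), (d : A).2, ?_, hunit d d.2, h⟩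
      intro h0
      apply d.2
      have : (d : A) = 0 := Subtype.ext h0
      rw [this]
      exact v.asIdeal.zero_mem
    · by_cases hv : π ∈ v.asIdeal
      · right
        have h1 : v.asIdeal = Ideal.span {π} := by
          refine (hmax.eq_of_le v.isPrime.ne_top ?_).symm
          rw [Ideal.span_singleton_le_iff_mem]
          exact hv
        have h2 := v.intValuation_singleton hπ h1
        have h3 : v.valuation K (algebraMap A K π) = WithZero.exp (-1 : ℤ) := by
          rw [v.valuation_of_algebraMap, h2]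
        change (placeOf (k := k) (L := K) v).ord (algebraMap A K π) = 1
        rw [placeOf_ord, h3]
        simp
      · left
        exact hunit π hv
  · intro f hf
    have h1 := HeightOneSpectrum.mem_integers_of_valuation_le_one (R := A) (K := K) f (by
      intro v
      rcases hf _ ⟨v, rfl⟩ with h0 | h0
      · rw [h0, map_zero]; exact zero_le
      · by_cases hf0 : f = 0
        · rw [hf0, map_zero]; exact zero_le
        · exact (placeOf_nonneg (k := k) v hf0).1 h0)
    obtain ⟨a, rfl⟩ := h1
    exact a.2

end Pool.Agent.W602.GT
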