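import Pool.Agent.Helper12.G.R_seed8.W602.GT.Dich

/-!
General type, or a vector field with constant ratios.
-/

set_option autoImplicit false

open FF Pool.Agent.W603.LV

namespace Pool.Agent.W602.GT

variable {k K : Type} [Field k] [Field K] [Algebra k K]

theorem trdeg_of_basis {w : ℕ} {t : Fin w → K} (ht : IsTranscendenceBasis k t) :
    Algebra.trdeg k K = w := by
  have h := ht.cardinalMk_eq_trdeg
  rw [Cardinal.mk_fin] at h
  exact h.symm

theorem basis_of_trdeg {w : ℕ} (h : Algebra.trdeg k K = w) :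
    ∃ t : Fin w → K, IsTranscendenceBasis k t := by
  obtain ⟨s, hs⟩ := exists_isTranscendenceBasis k K
  have h1 := hs.cardinalMk_eq_trdeg
  rw [h] at h1
  obtain ⟨φ⟩ : Nonempty (Fin w ≃ s) := by
    rw [← Cardinal.eq, Cardinal.mk_fin]
    exact h1.symm
  exact ⟨fun i => φ i, hs.comp_equiv φ⟩

/-- a dual basis of vector fields -/
theorem exists_dual [CharZero k] {w : ℕ} {t : Fin w → K} (ht : IsTranscendenceBasis k t) :
    ∃ D : Fin w → Derivation k K K, (Matrix.of fun i j => D i (t j)) = 1 := by
  have h : ∀ i : Fin w, ∃ D : Derivation k K K, ∀ j, D (t j) = (1 : Matrix (Fin w) (Fin w) K) i j :=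
    fun i => exists_der t ht _
  choose D hD using h
  refine ⟨D, ?_⟩
  ext i j
  rw [Matrix.of_apply, hD]

/-- **The dichotomy.** Let the orders of the members of the vanishing sums `g e` jump by at least
`w (s + 1) (0 + ... + (s - 2))` at the places outside `Bd`, where `s` is the maximal number of
members. Then `K` is of logarithmic general type with respect to `Bd`, or there is a nonzero vector
field such that the sums `g e` split into vanishing sums with constant ratios. -/
theorem system [IsAlgClosed k] [CharZero k] {w : ℕ} (hw : 0 < w) (htr : Algebra.trdeg k K = w)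
    {Ε : Type} {J : Ε → Type} [∀ e, Fintype (J e)]
    (g : ∀ e, J e → K) (hg : ∀ e j, g e j ≠ 0) (hsum : ∀ e, ∑ j, g e j = 0) {s : ℕ}
    (hs : ∀ e, Fintype.card (J e) ≤ s) (Bd : Place k K → Prop)
    (hjump : ∀ P : Place k K, ¬ Bd P → ∀ e i j, P.ord (g e i) = P.ord (g e j) ∨
      ((w * ((s + 1) * tn (s - 1)) : ℕ) : ℤ) ≤ |P.ord (g e i) - P.ord (g e j)|) :
    LogGeneralType k K w Bd ∨
    ∃ D : Derivation k K K, D ≠ 0 ∧ ∀ e, ∃ R : J e → J e → Prop, Equivalence R ∧
      (∀ i j, R i j → D (g e i) * g e j = g e i * D (g e j)) ∧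
      ∀ (j0 : J e) (A : Finset (J e)), (∀ j, j ∈ A ↔ R j0 j) → ∑ j ∈ A, g e j = 0 := by
  obtain ⟨x0, hx0⟩ := basis_of_trdeg htr
  rcases dich hw x0 hx0 g hg hsum hs with ⟨N, hN, hNs, t, ht, g', h0, h1, h2⟩ | h
  · left
    refine ⟨htr, N, hN, fun j => form t N (g' j), fun j => form_pluri t N (g' j),
      fun P _ j => (h2 P).1 j, fun P _ hP j => (h2 P).2 (fun e i j => ?_) j, ?_⟩
    · rcases hjump P hP e i j with h | h
      · exact Or.inl h
      · right
        refine le_trans ?_ h
        exact_mod_cast hNs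
    · obtain ⟨D, hD⟩ := exists_dual ht
      have hf : ∀ j, form t N (g' j) D = g' j := fun j => by
        unfold form
        rw [hD, Matrix.det_one, one_pow, mul_one]
      refine ⟨D, by change form t N (g' 0) D ≠ 0; rw [hf]; exact h0, ?_⟩
      simp only [hf, h1]
      exact ht.1
  · exact Or.inr h

theorem general_of_log {w : ℕ} (h : LogGeneralType k K w fun _ => False) : GeneralType k K w := by
  obtain ⟨h1, N, hN, ω, h2, -, h3, h4⟩ := h
  exact ⟨h1, N, hN, ω, h2, fun P hP => h3 P hP id, h4⟩

/-- sums weighted by a function which is constant on classes -/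
theorem weighted_sum {J : Type} [Fintype J] (R : J → J → Prop) (hR : Equivalence R) (g h : J → K)
    (hh : ∀ i j, R i j → h i = h j)
    (hcl : ∀ (j0 : J) (A : Finset J), (∀ j, j ∈ A ↔ R j0 j) → ∑ j ∈ A, g j = 0) :
    ∑ j, h j * g j = 0 := by
  classical
  let s : Setoid J := ⟨R, hR⟩
  rw [← Finset.sum_fiberwise Finset.univ (fun j => (Quotient.mk s j : Quotient s))]
  refine Finset.sum_eq_zero fun c _ => ?_
  obtain ⟨j0, rfl⟩ := Quotient.exists_rep c
  have h1 : ∀ j ∈ Finset.univ.filter (fun j => (Quotient.mk s j : Quotient s) = Quotient.mk s j0),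
      h j * g j = h j0 * g j := by
    intro j hj
    rw [Finset.mem_filter] at hj
    have h2 : R j j0 := Quotient.exact hj.2
    rw [hh j j0 h2]
  rw [Finset.sum_congr rfl h1, ← Finset.mul_sum, hcl j0 _ fun j => ?_, mul_zero]
  rw [Finset.mem_filter]
  constructor
  · intro hj
    exact hR.symm (Quotient.exact hj.2)
  · intro hj
    exact ⟨Finset.mem_univ _, Quotient.sound (hR.symm hj)⟩

end Pool.Agent.W602.GT
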